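import Pool.Agent.Lib.MP_75b31c_lc.D40.Iface

set_option autoImplicit false

/-!
# Complements and sets decided at a finite stage (module PUC)
-/

namespace Pool.Agent.Lib.MP_75b31c_lc.D40.H82

open Pool.Agent.Lib.MP_75b31c_lc.D40

/-- The identity morphism. -/
def idMor (T : GT) : Mor T T where
  f := fun q => q
  len_f := fun _ => rfl
  res_f := fun _ _ => rfl

/-- The identity covering. -/
def idCov (T : GT) : Cov T T where
  p := idMor T
  φ := fun _ σ => σ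
  strat := fun _ _ h => h
  lift := fun _ _ _ x hx hc => ⟨x, hx, hc, fun _ => rfl⟩
  loc := fun _ _ _ _ _ _ h q hq ht => h q hq ht

theorem fix_id (T : GT) (m : ℕ) : Fix m (idCov T) :=
  ⟨fun _ _ _ _ h => h, fun p _ => ⟨p, rfl⟩, fun _ _ _ _ _ _ => rfl⟩

theorem branch_map {S T : GT} (ψ : Mor S T) (y : ℕ → S.Q) (hy : Branch S y) :
    Branch T (fun n => ψ.f (y n)) := by
  intro n
  refine ⟨?_, ?_⟩
  · show T.len (ψ.f (y n)) = n
    rw [ψ.len_f]
    exact (hy n).1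
  · show T.res n (ψ.f (y (n + 1))) = ψ.f (y n)
    rw [ψ.res_f, (hy n).2]

theorem isFin_compl {T : GT} {X : Set (ℕ → T.Q)} (h : IsFin T X) : IsFin T Xᶜ := by
  obtain ⟨m, S, hS⟩ := h
  exact ⟨m, Sᶜ, fun x hx => not_congr (hS x hx)⟩

theorem isFin_map {S T : GT} (ψ : Mor S T) {X : Set (ℕ → T.Q)} (h : IsFin T X) :
    IsFin S {y | (fun n => ψ.f (y n)) ∈ X} := by
  obtain ⟨m, A, hA⟩ := h
  exact ⟨m, ψ.f ⁻¹' A, fun y hy => hA _ (branch_map ψ y hy)⟩

theorem puc : PUC_S := by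
  refine ⟨?_, ?_⟩
  · intro T X h T' ψ k
    obtain ⟨S, c, hf, hW⟩ := h T' ψ k
    exact ⟨S, c, hf, isFin_compl hW⟩
  · intro T X h T' ψ k
    exact ⟨T', idCov T', fix_id T' _, isFin_map ψ h⟩

end Pool.Agent.Lib.MP_75b31c_lc.D40.H82
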