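import Pool.Agent.Lib.MP_75b31c_lc.D40.Iface

set_option autoImplicit false

/-!
# Determinacy goes down a covering (module TRANS)
-/

namespace Pool.Agent.Lib.MP_75b31c_lc.D40.H82

open Pool.Agent.Lib.MP_75b31c_lc.D40

theorem trans : TRANS_S := by
  intro S T c W h
  rcases h with ⟨σ, hσ, hw⟩ | ⟨τ, hτ, hw⟩
  · refine Or.inl ⟨c.φ false σ, c.strat _ _ hσ, ?_⟩
    intro x hx hc
    obtain ⟨y, hy, hcy, hxy⟩ := c.lift false σ hσ x hx hc
    have h1 : (fun n => c.p.f (y n)) ∈ W := hw y hy hcy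
    have h2 : (fun n => c.p.f (y n)) = x := funext hxy
    rwa [h2] at h1
  · refine Or.inr ⟨c.φ true τ, c.strat _ _ hτ, ?_⟩
    intro x hx hc hxW
    obtain ⟨y, hy, hcy, hxy⟩ := c.lift true τ hτ x hx hc
    have h1 : ¬ (fun n => c.p.f (y n)) ∈ W := hw y hy hcy
    have h2 : (fun n => c.p.f (y n)) = x := funext hxy
    rw [h2] at h1
    exact h1 hxW

end Pool.Agent.Lib.MP_75b31c_lc.D40.H82
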